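import Pool.Agent.Helper78.JT.Goals2

/-!
# Project JT, packet PTJ: the algorithm runs in polynomial time
-/

set_option autoImplicit false

namespace Pool.Agent.Helper81.JT

open Pool.Agent.Helper78.JT Pool.Agent.Helper78.AO Pool.Agent.Helper78.DT Pool.Agent.Helper81.CC
  Pool.Agent.Helper16.DT

theorem bb_pos (a e : ℕ) : 0 < bb a e := by
  unfold bb
  positivity

theorem bb_mul_tj (a e L : ℕ) : bb a e * tj a e L ≤ Nat.log 2 L := by
  unfold tj
  exact Nat.mul_div_le _ _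

theorem pow_le_of_bb {a e L n : ℕ} (hL : 2 ≤ L) (h : n ≤ bb a e * tj a e L) : 2 ^ n ≤ L :=
  (Nat.pow_le_pow_right (by norm_num) (h.trans (bb_mul_tj a e L))).trans
    (Nat.pow_log_le_self 2 (by omega))

theorem Uj_pow (a e L j : ℕ) : Uj a e L ^ j = 2 ^ ((e + 1) * (a + 5) * tj a e L * j) := by
  unfold Uj
  rw [← pow_mul]

theorem Uj_pow_le (a e : ℕ) {L j : ℕ} (hL : 2 ≤ L) (hj : j ≤ e + 2) : Uj a e L ^ j ≤ L := by
  rw [Uj_pow]
  refine pow_le_of_bb (a := a) (e := e) hL ?_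
  unfold bb
  calc (e + 1) * (a + 5) * tj a e L * j ≤ (e + 1) * (a + 5) * tj a e L * (e + 2) :=
        Nat.mul_le_mul_left _ hj
    _ = (e + 1) * (e + 2) * (a + 5) * tj a e L := by ring

theorem Rj_pos (a e L j : ℕ) : 0 < Rj a e L j := (npr _ (Nat.pow_pos (by norm_num))).1.pos

theorem Pj_pos (c : ℕ) {L : ℕ} (hL : 2 ≤ L) : 0 < Pj c L := (npr _ (Nat.pow_pos (by omega))).1.pos

section
variable {γ : Type} [ToData γ] {L : γ → ℕ}

theorem ptj' (a e : ℕ) (hL : PolyTime L) : PolyTime fun g => tj a e (L g) := by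
  have h := (Pool.Agent.Helper3.DT.ptl γ L L L hL hL hL).2.1
  unfold tj
  exact PolyTime.div h (PolyTime.const _)

theorem pKj (c a β e : ℕ) (hL : PolyTime L) : PolyTime fun g => Kj c a β e (L g) := by
  have h1 := ptj' a e hL
  have h2 := pWW c hL
  unfold Kj
  exact PolyTime.mul (PolyTime.const _) (PolyTime.succ (PolyTime.div
    (PolyTime.mul (PolyTime.const _) h2) (PolyTime.succ h1)))

theorem pqj (c : ℕ) (hL : PolyTime L) : PolyTime fun g => qj c (L g) := by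
  unfold qj
  exact PolyTime.mul (PolyTime.const _) (PolyTime.pow hL _)

theorem pPj (c : ℕ) (hL : PolyTime L) : PolyTime fun g => Pj c (L g) :=
  (Pool.Agent.Helper3.DT.ptl γ (fun g => L g ^ (c + 8)) L L (PolyTime.pow hL _) hL hL).2.2.1

/-- powers of two whose exponent is a multiple of the width -/
theorem ppow2 (a e k : ℕ) (hk : k ≤ bb a e) (hL : PolyTime L) (hL2 : ∀ g, 2 ≤ L g) :
    PolyTime fun g => 2 ^ (k * tj a e (L g)) :=
  (Pool.Agent.Helper3.DT.ptl γ L (fun g => k * tj a e (L g)) L hL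
    (PolyTime.mul (PolyTime.const k) (ptj' a e hL)) hL).2.2.2.2 fun g =>
      pow_le_of_bb (hL2 g) (Nat.mul_le_mul_right _ hk)

theorem pUj (a e : ℕ) (hL : PolyTime L) (hL2 : ∀ g, 2 ≤ L g) :
    PolyTime fun g => Uj a e (L g) := by
  refine ppow2 a e ((e + 1) * (a + 5)) ?_ hL hL2
  unfold bb
  calc (e + 1) * (a + 5) = (e + 1) * 1 * (a + 5) := by ring
    _ ≤ (e + 1) * (e + 2) * (a + 5) := Nat.mul_le_mul_right _ (Nat.mul_le_mul_left _ (by omega))

theorem pRj (a e : ℕ) {n : γ → ℕ} (hL : PolyTime L) (hL2 : ∀ g, 2 ≤ L g) (hn : PolyTime n)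
    (hLn : ∀ g, 2 ^ L g ≤ n g) (j : ℕ) (hj : j ≤ e) : PolyTime fun g => Rj a e (L g) j := by
  have h1 : PolyTime fun g => Uj a e (L g) ^ (j + 1) := PolyTime.pow (pUj a e hL hL2) _
  have h2 : PolyTime fun g => 2 ^ (Uj a e (L g) ^ (j + 1)) :=
    (Pool.Agent.Helper3.DT.ptl γ n (fun g => Uj a e (L g) ^ (j + 1)) L hn h1 hL).2.2.2.2 fun g =>
      (Nat.pow_le_pow_right (by norm_num) (Uj_pow_le a e (hL2 g) (by omega))).trans (hLn g)
  exact (Pool.Agent.Helper3.DT.ptl γ (fun g => 2 ^ (Uj a e (L g) ^ (j + 1))) L L h2 hL hL).2.2.1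

theorem pdj (a e : ℕ) (hL : PolyTime L) (hL2 : ∀ g, 2 ≤ L g) (j : ℕ) :
    PolyTime fun g => dj a e (L g) j := by
  unfold dj
  exact PolyTime.mul (PolyTime.const _) (PolyTime.pow (pUj a e hL hL2) _)

theorem pDj (a e : ℕ) (hL : PolyTime L) (hL2 : ∀ g, 2 ≤ L g) : PolyTime fun g => Dj a e (L g) := by
  have h : PolyTime fun g => (2 ^ (1 * tj a e (L g))) ^ (a + 2 + e * (e + 2) * (a + 5)) *
      2 ^ (e * (e + 2) * (a + 5)) :=
    PolyTime.mul (PolyTime.pow (ppow2 a e 1 (bb_pos a e) hL hL2) _) (PolyTime.const _)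
  refine PolyTime.congr h fun g => ?_
  unfold Dj
  rw [← pow_mul, ← pow_add]
  congr 1
  ring

/-- the remaining part of the number of a seed -/
theorem pZl (a e : ℕ) {n θ : γ → ℕ} (hL : PolyTime L) (hL2 : ∀ g, 2 ≤ L g) (hn : PolyTime n)
    (hLn : ∀ g, 2 ^ L g ≤ n g) (hθ : PolyTime θ) (l : ℕ) (hl : l ≤ e + 1) :
    PolyTime fun g => θ g / Zl (Rj a e (L g)) (dj a e (L g)) l := by
  induction l with
  | zero =>
    refine PolyTime.congr hθ fun g => ?_
    simp [Zl]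
  | succ l ih =>
    refine PolyTime.congr (pdivpow Pool.Agent.Helper3.DT.ptl cpwS (ih (by omega))
      (pRj a e hL hL2 hn hLn l (by omega)) (pdj a e hL hL2 l) fun g => Rj_pos a e (L g) l) fun g => ?_
    simp only [Zl, Nat.div_div_eq_div_mul]

/-- the chain -/
theorem pch (a e : ℕ) {n θ x : γ → ℕ} (hL : PolyTime L) (hL2 : ∀ g, 2 ≤ L g) (hn : PolyTime n)
    (hLn : ∀ g, 2 ^ L g ≤ n g) (hθ : PolyTime θ) (hx : PolyTime x) (l : ℕ) (hl : l ≤ e + 1) :
    PolyTime fun g => ch (Rj a e (L g)) (dj a e (L g)) (θ g) (x g) l := by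
  induction l with
  | zero => exact hx
  | succ l ih =>
    refine (Pool.Agent.Helper87.DT.ptn γ).1 (fun g => Rj a e (L g) l) (fun g => dj a e (L g) l)
      (fun g => ch (Rj a e (L g)) (dj a e (L g)) (θ g) (x g) l)
      (fun g => dg (Rj a e (L g) l) (θ g / Zl (Rj a e (L g)) (dj a e (L g)) l))
      (fun g => Rj_pos a e (L g) l) (pRj a e hL hL2 hn hLn l (by omega)) (pdj a e hL hL2 l)
      (ih (by omega)) ?_
    refine (Pool.Agent.Helper87.DT.ptn (γ × ℕ)).2 (fun z => Rj a e (L z.1) l)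
      (fun z => θ z.1 / Zl (Rj a e (L z.1)) (dj a e (L z.1)) l) (fun z => z.2) ?_ ?_
      (PolyTime.snd PolyTime.id')
    · exact PolyTime.comp (g := fun g => Rj a e (L g) l) (pRj a e hL hL2 hn hLn l (by omega))
        (PolyTime.fst PolyTime.id')
    · exact PolyTime.comp (g := fun g => θ g / Zl (Rj a e (L g)) (dj a e (L g)) l)
        (pZl a e hL hL2 hn hLn hθ l (by omega)) (PolyTime.fst PolyTime.id')

/-- the number of the seeds of the chain, with powers cut off -/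
theorem pZlc (a e : ℕ) {n cap : γ → ℕ} (hL : PolyTime L) (hL2 : ∀ g, 2 ≤ L g) (hn : PolyTime n)
    (hLn : ∀ g, 2 ^ L g ≤ n g) (hcap : PolyTime cap) (l : ℕ) (hl : l ≤ e + 1) :
    PolyTime fun g => Zlc (cap g) (Rj a e (L g)) (dj a e (L g)) l := by
  induction l with
  | zero => exact PolyTime.const 1
  | succ l ih =>
    refine PolyTime.mul (ih (by omega)) ?_
    exact (Pool.Agent.Helper3.DT.ptl γ cap (fun g => dj a e (L g) l) (fun g => Rj a e (L g) l) hcap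
      (pdj a e hL hL2 l) (pRj a e hL hL2 hn hLn l (by omega))).2.2.2.1

/-- a bit of a string -/
theorem psb {P D y u : γ → ℕ} (hP : PolyTime P) (hD : PolyTime D) (hy : PolyTime y)
    (hu : PolyTime u) (hP0 : ∀ g, 0 < P g) : PolyTime fun g => sb (P g) (D g) (y g) (u g) := by
  unfold sb
  refine PolyTime.decide_lt (PolyTime.mul (PolyTime.const 2) ?_) hP
  refine (Pool.Agent.Helper87.DT.ptn γ).1 P D u (fun g => dg (P g) (y g)) hP0 hP hD hu ?_
  exact (Pool.Agent.Helper87.DT.ptn (γ × ℕ)).2 (fun z => P z.1) (fun z => y z.1) (fun z => z.2)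
    (PolyTime.comp hP (PolyTime.fst PolyTime.id')) (PolyTime.comp hy (PolyTime.fst PolyTime.id'))
    (PolyTime.snd PolyTime.id')

end

section
variable {α : Type} [ToData α]

theorem psdj (F : α → ℕ → ℕ → (ℕ → ℕ) → (ℕ → Bool) → Bool) (m : α → ℕ) (hF : PolyR F)
    (hm : PolyTime m) (c a β e : ℕ) {L n : α → ℕ} (hL : PolyTime L) (hL2 : ∀ x, 2 ≤ L x)
    (hn : PolyTime n) (hLn : ∀ x, 2 ^ L x ≤ n x) :
    PolyTime fun z : α × ℕ => sdj (F z.1) (m z.1) c a β e (L z.1) z.2 := by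
  have hx : PolyTime fun z : α × ℕ => z.1 := PolyTime.fst PolyTime.id'
  have hLz : PolyTime fun z : α × ℕ => L z.1 := PolyTime.comp hL hx
  -- on triples
  have hzz : PolyTime fun w : (α × ℕ) × ℕ => w.1 := PolyTime.fst PolyTime.id'
  have hLw : PolyTime fun w : (α × ℕ) × ℕ => L w.1.1 :=
    PolyTime.comp (g := fun z : α × ℕ => L z.1) hLz hzz
  have hnz : PolyTime fun z : α × ℕ => n z.1 := PolyTime.comp hn hx
  have hnw : PolyTime fun w : (α × ℕ) × ℕ => n w.1.1 :=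
    PolyTime.comp (g := fun z : α × ℕ => n z.1) hnz hzz
  have hvw : PolyTime fun w : (α × ℕ) × ℕ => w.2 := PolyTime.snd PolyTime.id'
  have hiw : PolyTime fun w : (α × ℕ) × ℕ => w.1.2 :=
    PolyTime.comp (g := fun z : α × ℕ => z.2) (PolyTime.snd PolyTime.id') hzz
  -- on quadruples
  have hww : PolyTime fun y : ((α × ℕ) × ℕ) × ℕ => y.1 := PolyTime.fst PolyTime.id'
  have hLy : PolyTime fun y : ((α × ℕ) × ℕ) × ℕ => L y.1.1.1 :=
    PolyTime.comp (g := fun w : (α × ℕ) × ℕ => L w.1.1) hLw hww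
  have hny : PolyTime fun y : ((α × ℕ) × ℕ) × ℕ => n y.1.1.1 :=
    PolyTime.comp (g := fun w : (α × ℕ) × ℕ => n w.1.1) hnw hww
  have hiy : PolyTime fun y : ((α × ℕ) × ℕ) × ℕ => y.1.1.2 :=
    PolyTime.comp (g := fun w : (α × ℕ) × ℕ => w.1.2) hiw hww
  have hjy : PolyTime fun y : ((α × ℕ) × ℕ) × ℕ => y.2 := PolyTime.snd PolyTime.id'
  have hAw : PolyTime fun y : ((α × ℕ) × ℕ) × ℕ => dg (Pj c (L y.1.1.1)) y.1.1.2 y.2 :=
    (Pool.Agent.Helper87.DT.ptn _).2 _ _ _ (pPj c hLy) hiy hjy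
  have hdivw : PolyTime fun w : (α × ℕ) × ℕ => w.1.2 / Pj c (L w.1.1) ^ (tj a e (L w.1.1) + 2) :=
    pdivpow Pool.Agent.Helper3.DT.ptl cpwS hiw (pPj c hLw)
      (PolyTime.add (ptj' a e hLw) (PolyTime.const 2)) fun w => Pj_pos c (hL2 _)
  have hdivy : PolyTime fun y : ((α × ℕ) × ℕ) × ℕ =>
      y.1.1.2 / Pj c (L y.1.1.1) ^ (tj a e (L y.1.1.1) + 2) :=
    pdivpow Pool.Agent.Helper3.DT.ptl cpwS hiy (pPj c hLy)
      (PolyTime.add (ptj' a e hLy) (PolyTime.const 2)) fun y => Pj_pos c (hL2 _)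
  have hdivy2 : PolyTime fun y : ((α × ℕ) × ℕ) × ℕ =>
      y.1.1.2 / Pj c (L y.1.1.1) ^ (tj a e (L y.1.1.1) + 2) /
        Zl (Rj a e (L y.1.1.1)) (dj a e (L y.1.1.1)) (e + 1) :=
    pZl a e hLy (fun y => hL2 _) hny (fun y => hLn _) hdivy (e + 1) le_rfl
  -- the partition
  have hpt : PolyTime fun w : (α × ℕ) × ℕ => pt (Pj c (L w.1.1)) (Kj c a β e (L w.1.1))
      (tj a e (L w.1.1)) (L w.1.1) (dg (Pj c (L w.1.1)) w.1.2) w.2 :=
    ppt Pool.Agent.Helper87.DT.ptn (pPj c hLw) (pKj c a β e hLw) (ptj' a e hLw) hLw hvw hAw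
      fun w => Pj_pos c (hL2 _)
  -- the code of the part
  have hs2 : PolyTime fun y : ((α × ℕ) × ℕ) × ℕ => dg (qj c (L y.1.1.1) * Pj c (L y.1.1.1))
      (y.1.1.2 / Pj c (L y.1.1.1) ^ (tj a e (L y.1.1.1) + 2) /
        Zl (Rj a e (L y.1.1.1)) (dj a e (L y.1.1.1)) (e + 1)) y.2 :=
    (Pool.Agent.Helper87.DT.ptn _).2 _ _ _ (PolyTime.mul (pqj c hLy) (pPj c hLy)) hdivy2 hjy
  have hs1 : PolyTime fun w : (α × ℕ) × ℕ => dg (qj c (L w.1.1) * Pj c (L w.1.1))
      (w.1.2 / Pj c (L w.1.1) ^ (tj a e (L w.1.1) + 2) /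
        Zl (Rj a e (L w.1.1)) (dj a e (L w.1.1)) (e + 1))
      (pt (Pj c (L w.1.1)) (Kj c a β e (L w.1.1)) (tj a e (L w.1.1)) (L w.1.1)
        (dg (Pj c (L w.1.1)) w.1.2) w.2) :=
    PolyTime.comp (g := fun y : ((α × ℕ) × ℕ) × ℕ => dg (qj c (L y.1.1.1) * Pj c (L y.1.1.1))
        (y.1.1.2 / Pj c (L y.1.1.1) ^ (tj a e (L y.1.1.1) + 2) /
          Zl (Rj a e (L y.1.1.1)) (dj a e (L y.1.1.1)) (e + 1)) y.2)
      (f := fun w : (α × ℕ) × ℕ => (w, pt (Pj c (L w.1.1)) (Kj c a β e (L w.1.1))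
        (tj a e (L w.1.1)) (L w.1.1) (dg (Pj c (L w.1.1)) w.1.2) w.2)) hs2
      (PolyTime.pair PolyTime.id' hpt)
  unfold sdj
  refine hF (α × ℕ) (fun z => z.1) (fun z => Kj c a β e (L z.1))
    (fun z => tj a e (L z.1)) _ _ hx (pKj c a β e hLz) (ptj' a e hLz) hpt ?_
  unfold cut cnj
  refine PolyTime.and (PolyTime.decide_lt hvw (PolyTime.comp hm (PolyTime.comp hx hzz))) ?_
  refine psb (pPj c hLw) (pDj a e hLw fun w => hL2 _) ?_ ?_ fun w => Pj_pos c (hL2 _)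
  · exact pch a e hLw (fun w => hL2 _) hnw (fun w => hLn _) hdivw (PolyTime.div hs1 (pPj c hLw))
      (e + 1) le_rfl
  · exact phs Pool.Agent.Helper87.DT.ptn (pPj c hLw) hLw (PolyTime.mod hs1 (pPj c hLw)) hvw
      fun w => Pj_pos c (hL2 _)

end

theorem two_pow_lg (N : ℕ) : 2 ^ lg N ≤ 4 * N + 4 := by
  unfold lg
  rcases Nat.eq_zero_or_pos N with h | h
  · subst h
    norm_num
  · have := Nat.pow_log_le_self 2 (show N ≠ 0 by omega)
    rw [pow_add]
    omega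

/-- packet PTJ -/
theorem ptj : PtjStmt := by
  intro α _ F m s c a β e C c0 hF hm hs
  have hL : PolyTime fun x => lg (s x) := (Pool.Agent.Helper3.DT.ptl α _ _ _ hs hs hs).1
  have hL2 : ∀ x, 2 ≤ lg (s x) := fun x => lg_two _
  have hn : PolyTime fun x => 4 * s x + 4 :=
    PolyTime.add (PolyTime.mul (PolyTime.const 4) hs) (PolyTime.const 4)
  have hLn : ∀ x, 2 ^ lg (s x) ≤ 4 * s x + 4 := fun x => two_pow_lg _
  have hcap : PolyTime fun x => (4 * s x + 4) ^ C := PolyTime.pow hn C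
  have hzn : PolyTime fun x => znj c a β e C (s x) := by
    unfold znj Zcj
    refine PolyTime.mul (PolyTime.mul ?_ ?_) ?_
    · exact (Pool.Agent.Helper3.DT.ptl α _ _ _ hcap
        (PolyTime.add (ptj' a e hL) (PolyTime.const 2)) (pPj c hL)).2.2.2.1
    · exact pZlc a e hL hL2 hn hLn hcap (e + 1) le_rfl
    · exact (Pool.Agent.Helper3.DT.ptl α _ _ _ hcap (pKj c a β e hL)
        (PolyTime.mul (pqj c hL) (pPj c hL))).2.2.2.1
  have hsd := psdj F m hF hm c a β e hL hL2 hn hLn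
  have han : PolyTime fun x => anj (F x) (m x) c a β e C (s x) := by
    unfold anj
    exact PolyTime.length (PolyTime.filter (PolyTime.range hzn) hsd)
  unfold apj
  exact PolyTime.div (PolyTime.add (PolyTime.mul (PolyTime.mul (PolyTime.const 2)
    (PolyTime.pow hL c0)) han) hzn) (PolyTime.mul (PolyTime.const 2) hzn)

end Pool.Agent.Helper81.JT
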